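import Pool.Agent.Helper684.GE.Main

/-!
MP_343136_an, Q1: the geometric ergodic theorem for singular holomorphic foliations whose
singularities are arbitrary.

Idea of the proof. Along a hyperbolic leaf compare the local generator `Z` of the foliation with
its norm for the Poincare metric: `W = log (‖Z‖ / |Z|_P)`, where `‖·‖` is a metric of the line
bundle generated by the local vector fields. `W` is bounded below, tends to infinity at the
singular set, and its leafwise Laplacian for the Poincare metric is a constant minus a term bounded
by `ω`; cutting with functions of `W` shows that the Poincare measure `m` of `T` is finite,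
whatever the singularities are. Then `m` is invariant and (as `T` is extremal) ergodic for the
convolution operators with radial kernels of the disc along the leaves. The Green averages in the
Nevanlinna currents are compared with resolvents of the averaging operator, for which the
maximal inequality of Hopf and the mean ergodic theorem give the almost everywhere convergence.
-/

set_option autoImplicit false

open scoped Manifold
open MeasureTheory Filter Topology
open Pool.Agent.Helper684.GE

namespace Pool.Agent.Results.MP_343136_an.ErgodicTheorem

/-- **Geometric ergodic theorem.** Let `M` be a compact complex manifold with a Hermitian form `ω`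
(for instance a Kaehler form) and `F` a singular holomorphic foliation by curves of `M`, with
arbitrary singularities. Let `T` be an extremal positive `dd^c`-closed current directed by `F`,
normalized by `⟨T, ω⟩ = 1`, which gives full mass to the hyperbolic leaves. Then for
`T ∧ ω`-almost every `a`, the Nevanlinna currents `τ_r` of the leaf of `a`
converge to `T` as `r → 1`: for each universal covering `φ` of the leaf of `a`, with `φ 0 = a`, and
each continuous real `(1,1)`-form `θ`, one has `⟨τ_r, θ⟩ → ⟨T, θ⟩`. -/
theorem result {E M : Type*} [NormedAddCommGroup E] [NormedSpace ℂ E] [FiniteDimensional ℂ E]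
    [TopologicalSpace M] [T2Space M] [CompactSpace M] [ChartedSpace E M]
    [IsManifold 𝓘(ℂ, E) 1 M] [MeasurableSpace M] [BorelSpace M]
    (ω : PosForm E M) (F : SingularFoliation E M) (T : Current E M)
    (hT : IsDirectedDdcClosed F T) (hext : IsExtremal F T)
    (μ : Measure M) [IsProbabilityMeasure μ] (hμ : IsTraceMeasure ω T μ)
    (hhyp : ∀ᵐ a ∂μ, F.IsHyperbolic a) :
    ∀ᵐ a ∂μ, ∀ φ : ℂ → M, F.IsUniversalCovering φ → φ 0 = a →
      ∀ θ : Form11 E M, Tendsto (nevanlinna ω θ φ) (𝓝[<] 1) (𝓝 (T.val θ)) :=
  geometric_ergodic ω F T hT hext μ hμ hhyp

end Pool.Agent.Results.MP_343136_an.ErgodicTheorem
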